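import Pool.Agent.H944Z.Smm.Main

set_option autoImplicit false

namespace Pool.Agent.Results.MP_5eed22_lc.SmmAlephOne

open Pool.Agent.H944Z.Smm

/-- If `d = u = ℵ₁` then `s_mm = ℵ₁`. -/
theorem result (hd : domNumber = Cardinal.aleph 1) (hu : ultNumber = Cardinal.aleph 1) :
    smm = Cardinal.aleph 1 :=
  smm_eq hd hu

end Pool.Agent.Results.MP_5eed22_lc.SmmAlephOne
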